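import Pool.Agent.H94.LP7.M43
import Pool.Agent.H94.LP7.M69

/-!
# XE2: the comparison of the ranks, small ranks

`u = |EE (d - e)| / A e m t (d - e)`, `u₁ = |EE (d - 1)| / A e m t (d - 1)` as in `Pool.Agent.XE.star2`.
`e t < d`: `EE_pow_all` with `j = d - e t`, `A e m t (d - 1) ≥ η m^(d-1)`, `A e m t j ≤ m^j`: `u₁^j ≤ (C / η^j) u^(d-1)`, and
`u₁^(d-2) ≤ u₁^j`.  `e t = d`: `u ∈ {0, 1}`, and `u = 0` implies `u₁ = 0`.
-/

set_option autoImplicit false

namespace Pool.Agent.XE2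

open Finset Pool.Agent.XD Pool.Agent.XE

theorem star3 (d : ℕ) (hd : 3 ≤ d) (η : ℝ) (hη : 0 < η) : ∃ c : ℝ, 1 ≤ c ∧
    ∃ n₁ : ℕ, ∀ m, n₁ ≤ m →
    ∀ (e : ℕ → ℕ) (F : ℕ → ℕ → ℕ → ℕ), (∀ t, 2 ≤ e t) → Sys d e F → ∀ t,
      (∀ j < d, η * (m : ℝ) ^ j ≤ (A e m t j : ℝ)) → e t ≤ d →
      ∃ u u₁ : ℝ, 0 ≤ u ∧ 0 ≤ u₁ ∧
        (F m (t + 1) d : ℝ) = (F m t d : ℝ) - u * (A e m t (d - e t) : ℝ) ∧
        (F (m - 1) t d : ℝ) = (F m t d : ℝ) - u₁ * (A e m t (d - 1) : ℝ) ∧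
        u₁ ^ (d - 2) ≤ c * u ^ (d - 1) := by
  obtain ⟨n₁, hn₁⟩ := thr d (by omega) (fun l _ η' hη' => xd l η' hη') η 1 hη one_pos
  obtain ⟨C, hC, hE⟩ := EE_pow_all d (by omega)
  obtain ⟨η', hη', hη'0, hη'1⟩ : ∃ η' : ℝ, η' ≤ η ∧ 0 < η' ∧ η' ≤ 1 :=
    ⟨min η 1, min_le_left _ _, lt_min hη one_pos, min_le_right _ _⟩
  have hinv : 1 ≤ η'⁻¹ := (one_le_inv₀ hη'0).2 hη'1
  have hc1 : 1 ≤ C * η'⁻¹ ^ d := by
    have h1 : 1 ≤ η'⁻¹ ^ d := one_le_pow₀ hinv
    nlinarith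
  refine ⟨C * η'⁻¹ ^ d, hc1, n₁, fun m hm e F he hS t hA het => ?_⟩
  obtain ⟨hm1, hF, -, -⟩ := hn₁ m hm e F he hS m t le_rfl hA
  obtain ⟨N, hN, hk1, hk2⟩ := hS.ker m t hm1
  have hk1' := hk1 het
  have hk2' := hk2 (by omega)
  have het2 := he t
  have he1 : ∀ t, 1 ≤ e t := fun t => le_trans (by norm_num) (he t)
  have hmR : (1 : ℝ) ≤ m := by exact_mod_cast hm1
  have hApos : ∀ j < d, (0 : ℝ) < (A e m t j : ℝ) := fun j hj =>
    lt_of_lt_of_le (by positivity) (hA j hj)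
  have hAposZ : ∀ j < d, (0 : ℤ) ≤ A e m t j := fun j hj => by exact_mod_cast (hApos j hj).le
  have hlay : ∀ j < d, ((lay N m j).card : ℝ) = (A e m t j : ℝ) := fun j hj => by
    rw [hN.cnt m le_rfl j hj.le]
    exact_mod_cast hF j hj
  have hcard : ∀ i, 1 ≤ i → i ≤ d →
      ((EE N m d (d - i)).card : ℝ) + (kk N m d i : ℝ) = (A e m t (d - i) : ℝ) := by
    intro i hi hid
    rw [← hlay (d - i) (by omega)]
    exact_mod_cast EE_card N m hid
  have hEe := hcard (e t) (he1 t) het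
  have hE1 := hcard 1 le_rfl (by omega)
  have c1 : (F m t (d - e t) : ℝ) = (A e m t (d - e t) : ℝ) := by
    exact_mod_cast hF (d - e t) (by omega)
  have c2 : (F m t (d - 1) : ℝ) = (A e m t (d - 1) : ℝ) := by
    exact_mod_cast hF (d - 1) (by omega)
  have c3 : (F m (t + 1) d : ℝ) + F m t (d - e t) = F m t d + kk N m d (e t) := by
    exact_mod_cast hk1'
  have c4 : (F (m - 1) t d : ℝ) + F m t (d - 1) = F m t d + kk N m d 1 := by
    exact_mod_cast hk2'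
  obtain ⟨x, hx⟩ : ∃ x : ℝ, x = ((EE N m d (d - e t)).card : ℝ) := ⟨_, rfl⟩
  obtain ⟨y, hy⟩ : ∃ y : ℝ, y = ((EE N m d (d - 1)).card : ℝ) := ⟨_, rfl⟩
  obtain ⟨a, ha⟩ : ∃ a : ℝ, a = (A e m t (d - e t) : ℝ) := ⟨_, rfl⟩
  obtain ⟨b, hb⟩ : ∃ b : ℝ, b = (A e m t (d - 1) : ℝ) := ⟨_, rfl⟩
  rw [← hx, ← ha] at hEe
  rw [← hy, ← hb] at hE1
  rw [← ha] at c1
  rw [← hb] at c2
  have hx0 : 0 ≤ x := by
    rw [hx]
    exact Nat.cast_nonneg _
  have hy0 : 0 ≤ y := by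
    rw [hy]
    exact Nat.cast_nonneg _
  have ha0 : 0 < a := by
    rw [ha]
    exact hApos _ (by omega)
  have hb0 : 0 < b := by
    rw [hb]
    exact hApos _ (by omega)
  have hkk1 : (0 : ℝ) ≤ (kk N m d 1 : ℝ) := Nat.cast_nonneg _
  have hkke : (0 : ℝ) ≤ (kk N m d (e t) : ℝ) := Nat.cast_nonneg _
  have hyb : y ≤ b := by linarith
  rw [← ha, ← hb]
  refine ⟨x / a, y / b, by positivity, by positivity, ?_, ?_, ?_⟩
  · rw [div_mul_cancel₀ _ ha0.ne']
    linarith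
  · rw [div_mul_cancel₀ _ hb0.ne']
    linarith
  · rcases Nat.lt_or_ge (e t) d with hlt | hge
    · obtain ⟨j, hj⟩ : ∃ j, j = d - e t := ⟨_, rfl⟩
      have hj1 : 1 ≤ j := by omega
      have h1 : y ^ j ≤ C * x ^ (d - 1) := by
        have h2 := hE j m N (fun i j => F i t j) hj1 (by omega) hm1 hN
        rw [← hy] at h2
        rw [hx, ← hj]
        exact h2
      have hbm : η' * (m : ℝ) ^ (d - 1) ≤ b := by
        rw [hb]
        exact (mul_le_mul_of_nonneg_right hη' (by positivity)).trans (hA (d - 1) (by omega))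
      have ham : a ≤ (m : ℝ) ^ j := by
        rw [ha, ← hj]
        exact_mod_cast A_le_pow he1 (D := d) hAposZ (j := j) (by omega)
      have h2 : (y / b) ^ (d - 2) ≤ (y / b) ^ j := by
        refine pow_le_pow_of_le_one (by positivity) ?_ (by omega)
        rw [div_le_one hb0]
        exact hyb
      refine h2.trans ?_
      have h3 : C * x ^ (d - 1) = C * (x / a) ^ (d - 1) * a ^ (d - 1) := by
        rw [div_pow]
        field_simp
      have h4 : a ^ (d - 1) ≤ ((m : ℝ) ^ j) ^ (d - 1) := pow_le_pow_left₀ ha0.le ham _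
      have h5 : ((m : ℝ) ^ j) ^ (d - 1) = ((m : ℝ) ^ (d - 1)) ^ j := by
        rw [← pow_mul, ← pow_mul, mul_comm]
      have h6 : (η' * (m : ℝ) ^ (d - 1)) ^ j ≤ b ^ j := pow_le_pow_left₀ (by positivity) hbm _
      have h7 : ((m : ℝ) ^ (d - 1)) ^ j ≤ η'⁻¹ ^ j * b ^ j := by
        rw [mul_pow] at h6
        calc ((m : ℝ) ^ (d - 1)) ^ j = η'⁻¹ ^ j * (η' ^ j * ((m : ℝ) ^ (d - 1)) ^ j) := by
              rw [← mul_assoc, ← mul_pow, inv_mul_cancel₀ hη'0.ne', one_pow, one_mul]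
          _ ≤ η'⁻¹ ^ j * b ^ j := mul_le_mul_of_nonneg_left h6 (by positivity)
      have h8 : η'⁻¹ ^ j ≤ η'⁻¹ ^ d := pow_le_pow_right₀ hinv (by omega)
      rw [div_pow, div_le_iff₀ (by positivity)]
      calc y ^ j ≤ C * x ^ (d - 1) := h1
        _ = C * (x / a) ^ (d - 1) * a ^ (d - 1) := h3
        _ ≤ C * (x / a) ^ (d - 1) * (η'⁻¹ ^ d * b ^ j) := by
            refine mul_le_mul_of_nonneg_left ?_ (by positivity)
            refine h4.trans ?_
            rw [h5]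
            exact h7.trans (mul_le_mul_of_nonneg_right h8 (by positivity))
        _ = C * η'⁻¹ ^ d * (x / a) ^ (d - 1) * b ^ j := by ring
    · have hed : e t = d := le_antisymm het hge
      have ha1 : a = 1 := by
        rw [ha, hed, Nat.sub_self, A_deg_zero he1]
        norm_num
      rw [ha1, div_one]
      rcases Nat.eq_zero_or_pos (EE N m d (d - e t)).card with h0 | h0
      · have h1 : EE N m d (d - e t) = ∅ := card_eq_zero.1 h0
        have h2 := EE_empty hN hm1 (j := d - e t) (i := d - 1) (by omega) (by omega) h1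
        have h4 : y = 0 := by
          rw [hy, h2]
          norm_num
        rw [h4, zero_div, zero_pow (by omega)]
        positivity
      · have h1 : (1 : ℝ) ≤ x := by
          rw [hx]
          exact_mod_cast h0
        have h2 : (y / b) ^ (d - 2) ≤ 1 := by
          refine pow_le_one₀ (by positivity) ?_
          rw [div_le_one hb0]
          exact hyb
        have h3 : 1 ≤ x ^ (d - 1) := one_le_pow₀ h1
        nlinarith

end Pool.Agent.XE2
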